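import Mathlib
import Pool.Agent.H12.Glob

/-! `u(0)` is not a global parameter in general: a counterexample with `n = 3`. -/

namespace Pool.Agent.Results.MP_eab5ac_an.Counter
open Set Filter Topology Pool.Agent.H12.Glob

/-- `u` is a positive classical (`C²` on `[0,1]`) solution of
`u'' + (n-1)/r u' + λ f(r,u) = 0`, `u'(0) = u(1) = 0`. -/
def PosSol (n : ℝ) (f : ℝ → ℝ → ℝ) (lam : ℝ) (u : ℝ → ℝ) : Prop :=
  ∃ u1 u2 : ℝ → ℝ, (∀ r ∈ Icc (0:ℝ) 1, HasDerivAt u (u1 r) r ∧ HasDerivAt u1 (u2 r) r) ∧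
    ContinuousOn u2 (Icc 0 1) ∧
    (∀ r ∈ Ioo (0:ℝ) 1, u2 r + (n - 1) / r * u1 r + lam * f r (u r) = 0) ∧
    u1 0 = 0 ∧ u 1 = 0 ∧ ∀ r ∈ Ico (0:ℝ) 1, 0 < u r

theorem sol (S S1 S2 : ℝ → ℝ) (σ : ℝ) (hσ : 0 < σ) (f : ℝ → ℝ → ℝ)
    (hS : ∀ x, HasDerivAt S (S1 x) x) (hS1 : ∀ x, HasDerivAt S1 (S2 x) x) (hS2 : Continuous S2)
    (hpos : ∀ x, -(1 / 1000 : ℝ) ≤ x → x ≤ 1 + 1 / 1000 → 0 < S1 x) (h0 : S 0 = 0) (h1 : S 1 = 1)
    (hf : ∀ x ∈ Icc (0:ℝ) 1, ∀ r, r ^ 2 = S x →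
      f r (1 - x) = σ * (6 * S1 x ^ 2 - 4 * S x * S2 x) / S1 x ^ 3) :
    ∃ u, PosSol 3 f σ⁻¹ u ∧ u 0 = 1 := by
  obtain ⟨X, hX, hX0, hX1, hXl⟩ := inv S S1 (1 / 1000) (by norm_num) hS hpos h0 h1
  have hsq : ∀ r ∈ Icc (0:ℝ) 1, r ^ 2 ∈ Icc (0:ℝ) 1 := fun r hr =>
    ⟨by positivity, by nlinarith [hr.1, hr.2]⟩
  have hp : ∀ r ∈ Icc (0:ℝ) 1, 0 < S1 (X (r ^ 2)) := fun r hr => by
    have := (hX _ (hsq r hr)).1
    exact hpos _ (by linarith [this.1]) (by linarith [this.2])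
  have hY : ∀ r ∈ Icc (0:ℝ) 1,
      HasDerivAt (fun t : ℝ => X (t ^ 2)) ((S1 (X (r ^ 2)))⁻¹ * (2 * r)) r := fun r hr => by
    have h2 : HasDerivAt (fun t : ℝ => t ^ 2) (2 * r) r := by simpa using hasDerivAt_pow 2 r
    exact HasDerivAt.comp r (h₂ := X) (hX _ (hsq r hr)).2.2 h2
  have hYc : ContinuousOn (fun t : ℝ => X (t ^ 2)) (Icc 0 1) := fun r hr =>
    (hY r hr).continuousAt.continuousWithinAt
  have hS1c : Continuous S1 := continuous_iff_continuousAt.2 fun x => (hS1 x).continuousAt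
  refine ⟨fun r => 1 - X (r ^ 2), ⟨fun r => -(2 * r) / S1 (X (r ^ 2)),
    fun r => -2 / S1 (X (r ^ 2)) + 4 * r ^ 2 * S2 (X (r ^ 2)) / S1 (X (r ^ 2)) ^ 3,
    fun r hr => ⟨?_, ?_⟩, ?_, fun r hr => ?_, by simp, by simp [hX1], fun r hr => ?_⟩,
    by simp [hX0]⟩
  · refine ((hY r hr).const_sub 1).congr_deriv ?_
    have := (hp r hr).ne'
    field_simp
  · have a : HasDerivAt (fun t : ℝ => -(2 * t)) (-2) r := by
      exact (((hasDerivAt_id' r).const_mul 2).fun_neg).congr_deriv (by ring)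
    have b : HasDerivAt (fun t : ℝ => S1 (X (t ^ 2)))
        (S2 (X (r ^ 2)) * ((S1 (X (r ^ 2)))⁻¹ * (2 * r))) r :=
      HasDerivAt.comp r (h₂ := S1) (hS1 _) (hY r hr)
    refine (a.div b (hp r hr).ne').congr_deriv ?_
    have := (hp r hr).ne'
    field_simp
    ring
  · have c1 : ContinuousOn (fun r : ℝ => S1 (X (r ^ 2))) (Icc 0 1) :=
      hS1c.comp_continuousOn hYc
    have c2 : ContinuousOn (fun r : ℝ => S2 (X (r ^ 2))) (Icc 0 1) :=
      hS2.comp_continuousOn hYc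
    refine (continuousOn_const.div c1 fun r hr => (hp r hr).ne').add
      (ContinuousOn.div (ContinuousOn.mul (by fun_prop) c2) (c1.pow 3)
        fun r hr => pow_ne_zero _ (hp r hr).ne')
  · have hr' : r ∈ Icc (0:ℝ) 1 := ⟨hr.1.le, hr.2.le⟩
    obtain ⟨hx, he, -⟩ := hX _ (hsq r hr')
    beta_reduce
    rw [hf _ hx r he.symm, he]
    have := (hp r hr').ne'
    have := hr.1.ne'
    field_simp
    ring
  · have := hXl (r ^ 2) ⟨by positivity, by nlinarith [hr.1, hr.2]⟩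
    beta_reduce
    linarith

/-- smooth clamp: identity on `[0,∞)`, values in `[-1/1000, 0]` on `(-∞,0]`. -/
noncomputable def τ (x : ℝ) : ℝ := x * Real.smoothTransition (1000 * x + 1)

theorem τ_eq (x : ℝ) (hx : 0 ≤ x) : τ x = x := by
  unfold τ; rw [Real.smoothTransition.one_of_one_le (by linarith), mul_one]

theorem τ_mem (x : ℝ) (hx : x ≤ 1) : -(1 / 1000 : ℝ) ≤ τ x ∧ τ x ≤ 1 + 1 / 1000 := by
  rcases le_total 0 x with h | h
  · rw [τ_eq x h]; constructor <;> linarith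
  · have a := Real.smoothTransition.nonneg (1000 * x + 1)
    have b := Real.smoothTransition.le_one (1000 * x + 1)
    rcases le_total (1000 * x + 1) 0 with h' | h'
    · unfold τ; rw [Real.smoothTransition.zero_of_nonpos h']; constructor <;> norm_num
    · unfold τ; constructor <;> nlinarith

theorem τ_smooth : ContDiff ℝ 1 τ := by
  unfold τ
  exact contDiff_id.mul (Real.smoothTransition.contDiff.comp (by fun_prop))

noncomputable def B (x : ℝ) : ℝ := N x / (D x * P1 x ^ 3 * Q1 x ^ 3)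

noncomputable def A (x : ℝ) : ℝ :=
  7 / 100 * (6 * P1 x ^ 2 - 4 * P x * P2 x) / P1 x ^ 3 + B x * P x

noncomputable def F (r v : ℝ) : ℝ := A (τ (1 - v)) - B (τ (1 - v)) * r ^ 2

theorem cB (x : ℝ) (h1 : -(1 / 1000 : ℝ) ≤ x) (h2 : x ≤ 1 + 1 / 1000) : ContDiffAt ℝ 1 B x := by
  have a := D_pos x h1 h2
  have b := P1_pos x h1 h2
  have c := Q1_pos x h1 h2
  have cN : ContDiff ℝ 1 N := by unfold N; fun_prop
  have cD : ContDiff ℝ 1 D := by unfold D; fun_prop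
  have cP : ContDiff ℝ 1 P1 := by unfold P1; fun_prop
  have cQ : ContDiff ℝ 1 Q1 := by unfold Q1; fun_prop
  exact cN.contDiffAt.div ((cD.mul (cP.pow 3)).mul (cQ.pow 3)).contDiffAt (by positivity)

theorem cA (x : ℝ) (h1 : -(1 / 1000 : ℝ) ≤ x) (h2 : x ≤ 1 + 1 / 1000) : ContDiffAt ℝ 1 A x := by
  have b := P1_pos x h1 h2
  have c0 : ContDiff ℝ 1 P := by unfold P; fun_prop
  have c1 : ContDiff ℝ 1 P1 := by unfold P1; fun_prop
  have c2 : ContDiff ℝ 1 P2 := by unfold P2; fun_prop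
  have c3 : ContDiff ℝ 1 fun x => 7 / 100 * (6 * P1 x ^ 2 - 4 * P x * P2 x) := by fun_prop
  exact (c3.contDiffAt.div (c1.pow 3).contDiffAt (by positivity)).add
    ((cB x h1 h2).mul c0.contDiffAt)

theorem result : ∃ f : ℝ → ℝ → ℝ,
    ContDiffOn ℝ 1 (fun p : ℝ × ℝ => f p.1 p.2) (Icc 0 1 ×ˢ Ici 0) ∧
    (∀ r ∈ Icc (0:ℝ) 1, ∀ v : ℝ, 0 ≤ v → ∃ d ≤ 0, HasDerivAt (fun t => f t v) d r) ∧
    ∃ (l₁ l₂ : ℝ) (u₁ u₂ : ℝ → ℝ), 0 < l₁ ∧ 0 < l₂ ∧ l₁ ≠ l₂ ∧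
      PosSol 3 f l₁ u₁ ∧ PosSol 3 f l₂ u₂ ∧ u₁ 0 = u₂ 0 := by
  refine ⟨F, fun p hp => ?_, fun r hr v hv => ?_, ?_⟩
  · have hv : 0 ≤ p.2 := hp.2
    obtain ⟨m1, m2⟩ := τ_mem (1 - p.2) (by linarith)
    have ct : ContDiff ℝ 1 fun q : ℝ × ℝ => τ (1 - q.2) := τ_smooth.comp (by fun_prop)
    have a : ContDiffAt ℝ 1 (fun q : ℝ × ℝ => A (τ (1 - q.2))) p :=
      ContDiffAt.comp (g := A) p (cA _ m1 m2) ct.contDiffAt
    have b : ContDiffAt ℝ 1 (fun q : ℝ × ℝ => B (τ (1 - q.2))) p :=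
      ContDiffAt.comp (g := B) p (cB _ m1 m2) ct.contDiffAt
    have c : ContDiffAt ℝ 1 (fun q : ℝ × ℝ => q.1 ^ 2) p := by fun_prop
    exact (a.sub (b.mul c)).contDiffWithinAt
  · obtain ⟨m1, m2⟩ := τ_mem (1 - v) (by linarith)
    have h2 : HasDerivAt (fun t : ℝ => t ^ 2) (2 * r) r := by simpa using hasDerivAt_pow 2 r
    refine ⟨-(B (τ (1 - v)) * (2 * r)), ?_, (h2.const_mul _).const_sub _⟩
    have a := D_pos _ m1 m2
    have b := P1_pos _ m1 m2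
    have c := Q1_pos _ m1 m2
    have d := N_pos _ m1 m2
    have e : 0 < B (τ (1 - v)) := by unfold B; positivity
    have := hr.1
    have : 0 ≤ B (τ (1 - v)) * (2 * r) := by positivity
    linarith
  · obtain ⟨u, hu, hu0⟩ := sol P P1 P2 (7 / 100) (by norm_num) F dP dP1
      (by unfold P2; fun_prop) P1_pos (by unfold P; norm_num) (by unfold P; norm_num)
      (fun x hx r hr => by
        unfold F A
        rw [sub_sub_cancel, τ_eq x hx.1, hr]; ring)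
    obtain ⟨w, hw, hw0⟩ := sol Q Q1 Q2 (17 / 250) (by norm_num) F dQ dQ1
      (by unfold Q2; fun_prop) Q1_pos (by unfold Q; norm_num) (by unfold Q; norm_num)
      (fun x hx r hr => by
        have m1 : -(1 / 1000 : ℝ) ≤ x := by linarith [hx.1]
        have m2 : x ≤ 1 + 1 / 1000 := by linarith [hx.2]
        have a := (D_pos _ m1 m2).ne'
        have b := (P1_pos _ m1 m2).ne'
        have c := (Q1_pos _ m1 m2).ne'
        have e1 : B x * (P x - Q x) = x * (1 - x) * N x / (P1 x ^ 3 * Q1 x ^ 3) := by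
          rw [idD]; unfold B; field_simp
        unfold F A
        rw [sub_sub_cancel, τ_eq x hx.1, hr]
        have e2 : 7 / 100 * (6 * P1 x ^ 2 - 4 * P x * P2 x) / P1 x ^ 3 + B x * P x - B x * Q x
            = 7 / 100 * (6 * P1 x ^ 2 - 4 * P x * P2 x) / P1 x ^ 3 + B x * (P x - Q x) := by ring
        rw [e2, e1, ← idN]
        field_simp
        ring)
    exact ⟨_, _, u, w, by norm_num, by norm_num, by norm_num, hu, hw, by rw [hu0, hw0]⟩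

end Pool.Agent.Results.MP_eab5ac_an.Counter
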